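import Pool.Agent.R169.MinSub

set_option autoImplicit false

/-!
# MP_f12303_co, Q1: volume and boundary growth of minimal subgraphs of `ℤⁿ`

For every `n ≥ 2` there are constants `c₂, c₄ > 0`, depending only on `n`, such that every minimal
subgraph `M` of `ℤⁿ` and every `x ∈ M` satisfy `|M ∩ B̂_r(x)| ≥ c₂ rⁿ` for all `r ≥ 0` and
`|δM ∩ B̂_r(x)| ≥ c₄ rⁿ⁻¹` for all large `r`.

Proof. Comparing `M` with `M` minus the box of radius `k` bounds the edge boundary of
`M ∩ box` by twice the number of points of `M` in the next layer; with the isoperimetric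
inequality of `ℤⁿ` this gives `a_{k+1} ≥ a_k + a_k^{(n-1)/n} / 2`, hence the volume bound. The
complement of a minimal subgraph is minimal, so both `M` and its complement have volume at least
a constant times `rⁿ` in the box, and the canonical-path (relative isoperimetric) inequality of
the box gives the boundary bound.
-/

namespace Pool.Agent.Results.MP_f12303_co.Growth

open Pool.Agent.R169.MinSub

/-- Q1 in the affirmative, for every `n ≥ 2`. -/
theorem result : ∀ n : ℕ, 2 ≤ n → ∃ c₂ c₄ : ℝ, 0 < c₂ ∧ 0 < c₄ ∧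
    ∀ M : Set (Fin n → ℤ), IsMinimalSubgraph M → ∀ x ∈ M,
      (∀ r : ℝ, 0 ≤ r → c₂ * r ^ n ≤ ((M ∩ cube x r).ncard : ℝ)) ∧
      (∃ r₀ : ℝ, ∀ r : ℝ, r₀ ≤ r →
        c₄ * r ^ (n - 1) ≤ ((vertexBoundary M ∩ cube x r).ncard : ℝ)) := by
  intro n hn
  have hn0 : (0 : ℝ) < n := by
    have : 0 < n := by omega
    exact_mod_cast this
  refine ⟨(1 / 2 ^ (n + 1)) ^ n, ((1 / 2 ^ (n + 1)) ^ n) ^ 2 / (2 ^ n * n * 3 ^ (n + 1)),
    by positivity, by positivity, ?_⟩
  intro M hM x hx
  exact ⟨fun r hr => floor_growth hn hM hx r hr, boundary_growth hn hM hx⟩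

end Pool.Agent.Results.MP_f12303_co.Growth
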